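import Pool.Agent.Helper61_CTD.Tools

/-!
E4, E5, E6: names of relations, injections from names, no injections.
-/

open Set

namespace Pool.Agent.CTD.H61

open Pool.Agent.FL

variable {B : Type 1} [CompleteBooleanAlgebra B]

theorem e4 (h1 : E1Nm) (h3 : E3De) : E4Fn := by
  intro B _ A R
  obtain ⟨-, -, -, -, -, -, hfn, -⟩ := h1 B
  have m1 := mod_op (B := B) (fun l => match l with
    | [a] => { a with nm := A a.th }
    | _ => default)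
  have m2 := mod_op (B := B) (fun l => match l with
    | [a] => { a with nm := fnm A (R a.th) }
    | _ => default)
  have m3 := mod_wit (B := B) th_surj (fun l β => match l with
    | [a, p] => ⨆ ξ, R a.th β ξ ⊓ beq p.nm (opr (A β) (chk ξ))
    | _ => ⊥)
  have m4 := mod_wit (B := B) th_surj (fun l ξ => match l with
    | [a, p, b] => R a.th b.th ξ ⊓ beq p.nm (opr (A b.th) (chk ξ))
    | _ => ⊥)
  refine mod_mono (mod_and (mod_and m1 m2) (mod_and m3 m4)) ?_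
  rintro H G M E π hB ⟨⟨c1, c2⟩, c3, c4⟩ α ⟨wα, hα, rfl⟩
  obtain ⟨-, hpair, happ, -, -⟩ := h3 B H G M E π hB
  have a1 : ∀ β, HT H β → HN H (A β) := by
    rintro β ⟨wβ, hβ, rfl⟩
    exact ⟨_, c1 [wβ] (by simpa using hβ), rfl⟩
  have a2 : HN H (fnm A (R wα.th)) := ⟨_, c2 [wα] (by simpa using hα), rfl⟩
  have a4 : ∀ p, E p (π (fnm A (R wα.th))) → ∃ β ξ, HT H β ∧ HT H ξ ∧
      IsPair E p (π (A β)) (π (chk ξ)) ∧ R wα.th β ξ ∈ G := by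
    intro p hp
    obtain ⟨a, ha, rfl⟩ := hB.surj p
    rw [hB.mem _ _ ha a2, hfn] at hp
    obtain ⟨wp, hwp, rfl⟩ := ha
    obtain ⟨wβ, hβ, hp⟩ := c3 [wα, wp] (by simp [hα, hwp]) hp
    obtain ⟨wξ, hξ, hp⟩ := c4 [wα, wp, wβ] (by simp [hα, hwp, hβ]) hp
    refine ⟨wβ.th, wξ.th, ⟨_, hβ, rfl⟩, ⟨_, hξ, rfl⟩, ?_, flt_left hB.flt hp⟩
    have hA := a1 _ ⟨_, hβ, rfl⟩
    have hc := hB.chk _ ⟨_, hξ, rfl⟩
    have e : π wp.nm = π (opr (A wβ.th) (chk wξ.th)) :=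
      (hB.eqv _ _ ⟨_, hwp, rfl⟩ (hB.opr _ _ hA hc)).2 (flt_right hB.flt hp)
    rw [e]
    exact hB.pair _ _ hA hc
  refine ⟨a1, a2, ?_, a4⟩
  intro x y
  constructor
  · rintro ⟨p, hp, hxy⟩
    obtain ⟨β, ξ, hβ, hξ, hpp, hR⟩ := a4 p hp
    obtain ⟨e1, e2⟩ := hpair _ _ _ _ _ hxy hpp
    exact ⟨β, ξ, hβ, hξ, e1, e2, hR⟩
  · rintro ⟨β, ξ, hβ, hξ, rfl, rfl, hR⟩
    have hA := a1 _ hβ
    have hc := hB.chk _ hξ
    rw [happ _ _ _ a2 hA hc, hfn]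
    refine hB.flt.up _ hR _ ?_
    refine le_iSup_of_le β (le_iSup_of_le ξ ?_)
    rw [(pa1 B).1, inf_top_eq]

theorem e5 (h4 : E4Fn) : E5In := by
  intro B _ A R κ
  have m1 := mod_wit (B := B) th_surj (fun l ξ => match l with
    | [a, b] => R a.th b.th ξ
    | _ => ⊥)
  refine mod_mono (mod_and (h4 B A R) m1) ?_
  rintro H G M E π hB ⟨c0, c1⟩ α ⟨wα, hα, rfl⟩ htot hdom hfun hinj hA a b ha hb
  obtain ⟨a1, a2, a3, a4⟩ := c0 _ ⟨wα, hα, rfl⟩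
  refine ⟨π (fnm A (R wα.th)), ⟨?_, ?_⟩, ?_⟩
  · intro p hp
    obtain ⟨β, ξ, hβ, hξ, hpp, hR⟩ := a4 p hp
    obtain ⟨h5, h6⟩ := hdom β ξ (flt_ne hB.flt hR)
    exact ⟨_, _, (ha _).2 ⟨β, hβ, h5, rfl⟩, (hb _).2 ⟨ξ, hξ, h6, rfl⟩, hpp⟩
  · intro x hx
    obtain ⟨β, ⟨wβ, hβ, rfl⟩, hβα, rfl⟩ := (ha _).1 hx
    have h5 : (⨆ ξ, R wα.th wβ.th ξ) ∈ G := by
      have : (⨆ ξ, R wα.th wβ.th ξ) = ⊤ := by
        apply top_le_iff.1
        rw [← htot _ hβα]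
        exact iSup_mono fun ξ => iSup_le fun _ => le_rfl
      rw [this]
      exact hB.flt.top
    obtain ⟨wξ, hξ, hR⟩ := c1 [wα, wβ] (by simp [hα, hβ]) h5
    have hR' : R wα.th wβ.th wξ.th ∈ G := hR
    refine ⟨π (chk wξ.th), (a3 _ _).2 ⟨_, _, ⟨_, hβ, rfl⟩, ⟨_, hξ, rfl⟩, rfl, rfl, hR'⟩, ?_⟩
    intro y hy
    obtain ⟨β', ξ', hβ', hξ', e1, rfl, hR2⟩ := (a3 _ _).1 hy
    have e2 : wβ.th = β' := by
      by_contra hne
      have h6 := (hB.eqv _ _ (a1 _ ⟨_, hβ, rfl⟩) (a1 _ hβ')).1 e1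
      rw [hA _ hβα _ (hdom _ _ (flt_ne hB.flt hR2)).1 hne] at h6
      exact hB.flt.bot h6
    subst e2
    have e3 : ξ' = wξ.th := by
      by_contra hne
      have h6 := hB.flt.inf _ hR2 _ hR'
      rw [hfun _ _ _ hne] at h6
      exact hB.flt.bot h6
    rw [e3]
  · intro x x' y hx hx'
    obtain ⟨β, ξ, hβ, hξ, rfl, rfl, hR⟩ := (a3 _ _).1 hx
    obtain ⟨β', ξ', hβ', hξ', rfl, e1, hR'⟩ := (a3 _ _).1 hx'
    have e2 := hB.inj _ _ hξ hξ' e1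
    subst e2
    have e3 : β = β' := by
      by_contra hne
      have h6 := hB.flt.inf _ hR _ hR'
      rw [hinj _ _ _ hne] at h6
      exact hB.flt.bot h6
    rw [e3]

theorem e6 (h3 : E3De) : E6No := by
  intro B _ P Q hno
  -- `y γ ξ η` is the value of `γ ξ = η`
  let y : BSet B → Th → Th → B := fun γ ξ η => bmem (opr (chk ξ) (chk η)) γ
  have m1 := mod_inf (B := B) th_surj (fun l ξ => match l with
    | [g] => ⨅ _ : P ξ, ⨆ η, ⨆ _ : Q η, y g.nm ξ η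
    | _ => ⊥)
  have m2 := mod_inf (B := B) th_surj (fun l ξ => match l with
    | [g] => ⨅ _ : P ξ, ⨅ ξ', ⨅ _ : P ξ', ⨅ _ : ξ ≠ ξ', ⨅ η, ⨅ _ : Q η,
        (y g.nm ξ η ⊓ y g.nm ξ' η)ᶜ
    | _ => ⊥)
  have m3 := mod_wit (B := B) th_surj (fun l ξ' => match l with
    | [g, x] => ⨆ _ : P ξ', ⨆ _ : x.th ≠ ξ', ⨆ η, ⨆ _ : Q η,
        (y g.nm x.th η ⊓ y g.nm ξ' η)
    | _ => ⊥)
  have m4 := mod_wit (B := B) th_surj (fun l η => match l with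
    | [g, x, x'] => ⨆ _ : Q η, (y g.nm x.th η ⊓ y g.nm x'.th η)
    | _ => ⊥)
  refine mod_mono (mod_and (mod_and m1 m2) (mod_and m3 m4)) ?_
  rintro H G M E π hB ⟨⟨c1, c2⟩, c3, c4⟩ a b ha hb ⟨g, ⟨hg1, hg2⟩, hg3⟩
  obtain ⟨-, hpair, happ, -, -⟩ := h3 B H G M E π hB
  obtain ⟨γ, ⟨wg, hwg, rfl⟩, rfl⟩ := hB.surj g
  have happ' : ∀ ξ η, HT H ξ → HT H η →
      (App E (π wg.nm) (π (chk ξ)) (π (chk η)) ↔ y wg.nm ξ η ∈ G) := fun ξ η hξ hη =>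
    happ _ _ _ ⟨_, hwg, rfl⟩ (hB.chk _ hξ) (hB.chk _ hη)
  rcases c1 [wg] (by simpa using hwg) with t1 | ⟨wξ, hξ, t1⟩
  · rcases c2 [wg] (by simpa using hwg) with t2 | ⟨wξ, hξ, t2⟩
    · have := hB.flt.inf _ t1 _ t2
      simp only at this
      rw [hno (y wg.nm)] at this
      exact hB.flt.bot this
    · simp only [compl_iInf, compl_compl] at t2
      obtain ⟨hP, t2⟩ := flt_prop hB.flt t2
      obtain ⟨wξ', hξ', t3⟩ := c3 [wg, wξ] (by simp [hwg, hξ]) (by simpa using t2)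
      simp only at t3
      obtain ⟨hP', t3⟩ := flt_prop hB.flt t3
      obtain ⟨hne, t3⟩ := flt_prop hB.flt t3
      obtain ⟨wη, hη, t4⟩ := c4 [wg, wξ, wξ'] (by simp [hwg, hξ, hξ']) (by simpa using t3)
      simp only at t4
      obtain ⟨hQ, t4⟩ := flt_prop hB.flt t4
      have e1 := (happ' _ _ ⟨_, hξ, rfl⟩ ⟨_, hη, rfl⟩).2 (flt_left hB.flt t4)
      have e2 := (happ' _ _ ⟨_, hξ', rfl⟩ ⟨_, hη, rfl⟩).2 (flt_right hB.flt t4)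
      exact hne (hB.inj _ _ ⟨_, hξ, rfl⟩ ⟨_, hξ', rfl⟩ (hg3 _ _ _ e1 e2))
  · simp only [compl_iInf] at t1
    obtain ⟨hP, t1⟩ := flt_prop hB.flt t1
    obtain ⟨z, hz, -⟩ := hg2 _ ((ha _).2 ⟨_, ⟨_, hξ, rfl⟩, hP, rfl⟩)
    have hzb : E z b := by
      obtain ⟨p, hp, hpz⟩ := hz
      obtain ⟨x', y', -, hy', hpp⟩ := hg1 p hp
      rw [(hpair _ _ _ _ _ hpz hpp).2]
      exact hy'
    obtain ⟨η, hη, hQ, rfl⟩ := (hb _).1 hzb
    have h5 := (happ' _ _ ⟨_, hξ, rfl⟩ hη).1 hz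
    refine flt_compl' hB.flt t1 (hB.flt.up _ h5 _ ?_)
    exact le_iSup_of_le η (le_iSup_of_le hQ le_rfl)

end Pool.Agent.CTD.H61
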