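import Pool.Agent.Helper61_CTD.Tools

/-!
E7, E8, E9: the space in the model, the cardinals, closedness.
-/

open Set

namespace Pool.Agent.CTD.H61

open Pool.Agent.FL

variable {B : Type 1} [CompleteBooleanAlgebra B]

lemma agr_self {T : Type*} (K : Finset T) (z : T → B) : agr K z z = ⊤ := by
  simp [agr]

lemma agr_comm {T : Type*} (K : Finset T) (z z' : T → B) : agr K z z' = agr K z' z := by
  simp [agr, bihimp_comm]

lemma bihimp_trans (a b c : B) : bihimp a b ⊓ bihimp b c ≤ bihimp a c := by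
  rw [bihimp_def, bihimp_def, bihimp_def]
  apply le_inf
  · rw [le_himp_iff]
    have h1 : (b ⇨ a) ⊓ (c ⇨ b) ⊓ c ≤ a := by
      calc (b ⇨ a) ⊓ (c ⇨ b) ⊓ c = (b ⇨ a) ⊓ ((c ⇨ b) ⊓ c) := inf_assoc _ _ _
        _ ≤ (b ⇨ a) ⊓ b := inf_le_inf_left _ himp_inf_le
        _ ≤ a := himp_inf_le
    refine le_trans ?_ h1
    apply inf_le_inf_right
    exact inf_le_inf inf_le_left inf_le_left
  · rw [le_himp_iff]
    have h1 : (b ⇨ c) ⊓ (a ⇨ b) ⊓ a ≤ c := by
      calc (b ⇨ c) ⊓ (a ⇨ b) ⊓ a = (b ⇨ c) ⊓ ((a ⇨ b) ⊓ a) := inf_assoc _ _ _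
        _ ≤ (b ⇨ c) ⊓ b := inf_le_inf_left _ himp_inf_le
        _ ≤ c := himp_inf_le
    refine le_trans ?_ h1
    apply inf_le_inf_right
    rw [inf_comm]
    exact inf_le_inf inf_le_right inf_le_right

lemma agr_trans {T : Type*} (K : Finset T) (x y z : T → B) :
    agr K x y ⊓ agr K y z ≤ agr K x z := by
  unfold agr
  refine le_iInf fun t => le_iInf fun ht => ?_
  refine le_trans (inf_le_inf (iInf₂_le t ht) (iInf₂_le t ht)) ?_
  exact bihimp_trans _ _ _

lemma isX_self {T I : Type*} (F : I → T → B) (b : I) : IsX F (F b) = ⊤ := by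
  apply top_le_iff.1
  refine le_iInf fun K => le_iSup_of_le b ?_
  rw [agr_self]

theorem e7 (h1 : E1Nm) : E7Xb := by
  intro B _ F
  obtain ⟨-, -, -, -, -, -, -, hXn, -, hXn', -, -⟩ := h1 B
  have m1 := mod_op (B := B) (fun _ => { (default : Wd B) with nm := Xn F })
  have m2 := mod_op (B := B) (fun l => match l with
    | [a] => { a with nm := pt a.zz }
    | _ => default)
  have m3 := mod_op (B := B) (fun l => match l with
    | [a] => { a with nm := pt (F a.br) }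
    | _ => default)
  have m4 := mod_dec (B := B) (fun l => match l with
    | [a] => IsX F (tr a.nm)
    | _ => ⊥)
  have m5 := mod_inf (B := B) nm_surj (fun l x => match l with
    | [a] => bmem x a.nm ⇨ bmem x W2n
    | _ => ⊥)
  refine mod_mono (mod_and (mod_and m1 m2) (mod_and m3 (mod_and m4 m5))) ?_
  rintro H G M E π hB ⟨⟨c1, c2⟩, c3, c4, c5⟩
  have hx : HN H (Xn F) := ⟨_, c1 [] (by simp), rfl⟩
  have hptF : ∀ b, HB H b → HN H (CTD.pt (F b)) := by
    rintro b ⟨w, hw, rfl⟩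
    exact ⟨_, c3 [w] (by simpa using hw), rfl⟩
  refine ⟨hx, ?_, ?_, hptF, ?_, ?_⟩
  · intro a ha
    rw [hB.mem _ _ ha hx, hXn']
    constructor
    · intro h
      refine ⟨?_, flt_left hB.flt h⟩
      intro m hm
      obtain ⟨c, hc, rfl⟩ := hB.surj m
      rw [hB.mem _ _ hc ha] at hm
      rw [hB.mem _ _ hc hB.w2]
      have h2 : (bmem c a ⇨ bmem c W2n) ∈ G :=
        hB.flt.up _ (flt_right hB.flt h) _ (iInf_le _ c)
      refine hB.flt.up _ (hB.flt.inf _ h2 _ hm) _ himp_inf_le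
    · rintro ⟨hsub, hX⟩
      refine hB.flt.inf _ hX _ ?_
      obtain ⟨wa, hwa, rfl⟩ := ha
      rcases c5 [wa] (by simpa using hwa) with h | ⟨w, hw, h⟩
      · exact h
      · exfalso
        simp only [himp_eq, compl_sup, compl_compl] at h
        have h2 := hsub _ ((hB.mem _ _ ⟨_, hw, rfl⟩ ⟨_, hwa, rfl⟩).2 (flt_right hB.flt h))
        rw [hB.mem _ _ ⟨_, hw, rfl⟩ hB.w2] at h2
        exact flt_compl hB.flt h2 (flt_left hB.flt h)
  · rintro z ⟨w, hw, rfl⟩
    exact ⟨_, c2 [w] (by simpa using hw), rfl⟩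
  · intro b hb
    rw [hB.mem _ _ (hptF b hb) hx, hXn]
    refine hB.flt.up _ hB.flt.top _ ?_
    refine le_iSup_of_le (F b) ?_
    rw [isX_self, (pa1 B).1, inf_top_eq]
  · rintro a ⟨w, hw, rfl⟩
    exact c4 [w] (by simpa using hw)

/-- the elements of the finite sets in the hull are in the hull -/
theorem mod_fs : Mod B fun H _ _ _ _ => ∀ K, HF H K → ∀ α ∈ K, HT H α := by
  have m1 := mod_op (B := B) (fun l =>
    { (default : Wd B) with th := (l.headD default).fs.toList.getD (l.length - 1) 0 })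
  refine mod_mono m1 ?_
  rintro H G M E π hB c K ⟨w, hw, rfl⟩ α hα
  obtain ⟨k, hk, hk'⟩ := List.mem_iff_getElem.1 (Finset.mem_toList.2 hα)
  refine ⟨_, c (w :: List.replicate k w) ?_, ?_⟩
  · intro x hx
    simp only [List.mem_cons, List.mem_replicate] at hx
    rcases hx with rfl | ⟨-, rfl⟩ <;> exact hw
  · simp only [List.headD_cons, List.length_cons, List.length_replicate, Nat.add_sub_cancel]
    rw [List.getD_eq_getElem _ _ hk, hk']

theorem e9 (h3 : E3De) (h7 : E7Xb) : E9Cl := by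
  intro B _ F
  have m1 := mod_inf (B := B) fs_surj (fun l K => match l with
    | [a] => ⨆ b, agr K (tr a.nm) (F b)
    | _ => ⊥)
  refine mod_mono (mod_and (h7 B F) (mod_and m1 mod_fs)) ?_
  rintro H G M E π hB ⟨hX, c1, c2⟩
  obtain ⟨-, -, -, hagr, -⟩ := h3 B H G M E π hB
  constructor
  · intro x hx
    obtain ⟨a, ha, rfl⟩ := hB.surj x
    exact ((hX.mem a ha).1 hx).1
  · intro x hx
    obtain ⟨a, ⟨wa, hwa, rfl⟩, rfl⟩ := hB.surj x
    obtain ⟨hsub, hcl⟩ := hx
    refine (hX.mem _ ⟨_, hwa, rfl⟩).2 ⟨hsub, ?_⟩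
    rcases c1 [wa] (by simpa using hwa) with h | ⟨wK, hwK, h⟩
    · exact h
    · exfalso
      simp only at h
      classical
      obtain ⟨y, hy, hyK⟩ := hcl (wK.fs.image fun α => π (chk α)) (by
        intro t ht
        obtain ⟨α, hα, rfl⟩ := Finset.mem_image.1 ht
        exact (hB.memW2 _).2 ⟨α, c2 _ ⟨_, hwK, rfl⟩ α hα, rfl⟩)
      obtain ⟨c, hc, rfl⟩ := hB.surj y
      have h4 := ((hX.mem c hc).1 hy).2
      have h5 : agr wK.fs (tr wa.nm) (tr c) ∈ G := by
        rw [hagr _ _ _ ⟨_, hwa, rfl⟩ hc (c2 _ ⟨_, hwK, rfl⟩)]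
        intro α hα
        exact hyK _ (Finset.mem_image_of_mem _ hα)
      have h6 : IsX F (tr c) ≤ ⨆ b, agr wK.fs (tr c) (F b) := iInf_le _ _
      have h7 : agr wK.fs (tr wa.nm) (tr c) ⊓ IsX F (tr c) ≤ ⨆ b, agr wK.fs (tr wa.nm) (F b) := by
        refine le_trans (inf_le_inf_left _ h6) ?_
        rw [inf_iSup_eq]
        exact iSup_mono fun b => agr_trans _ _ _ _
      exact flt_compl' hB.flt h (hB.flt.up _ (hB.flt.inf _ h5 _ h4) _ h7)

end Pool.Agent.CTD.H61
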