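import Pool.Agent.Helper61_CTD.Tools
import Pool.Agent.Helper94_CTD.Basic

/-!
E8: the first two uncountable cardinals of the model.
-/

open Set

namespace Pool.Agent.CTD.H61

open Pool.Agent.FL

variable {B : Type 1} [CompleteBooleanAlgebra B]

lemma sub_chk {H : Set (Wd B)} {G : Set B} {M : Type} {E : M → M → Prop} {π : BSet B → M}
    (hB : Base H G E π) {α β : Th} (hα : HT H α) (hβ : HT H β) (h : α ≤ β) :
    Sub E (π (chk α)) (π (chk β)) := by
  intro m hm
  obtain ⟨γ, hγ, h1, rfl⟩ := (hB.memchk α hα m).1 hm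
  exact (hB.memchk β hβ _).2 ⟨γ, hγ, h1.trans_le h, rfl⟩

lemma ord_chk {H : Set (Wd B)} {G : Set B} {M : Type} {E : M → M → Prop} {π : BSet B → M}
    (hB : Base H G E π) {β : Th} (hβ : HT H β) : IsOrd E (π (chk β)) := by
  constructor
  · intro x hx
    obtain ⟨α, hα, h1, rfl⟩ := (hB.memchk β hβ x).1 hx
    exact sub_chk hB hα hβ h1.le
  · intro x hx y hy
    obtain ⟨α, hα, h1, rfl⟩ := (hB.memchk β hβ x).1 hx
    obtain ⟨γ, hγ, h2, rfl⟩ := (hB.memchk α hα y).1 hy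
    exact sub_chk hB hγ hα h2.le

lemma ord_W2 {H : Set (Wd B)} {G : Set B} {M : Type} {E : M → M → Prop} {π : BSet B → M}
    (hB : Base H G E π) : IsOrd E (π W2n) := by
  constructor
  · intro x hx
    obtain ⟨α, hα, rfl⟩ := (hB.memW2 x).1 hx
    intro m hm
    obtain ⟨γ, hγ, h1, rfl⟩ := (hB.memchk α hα m).1 hm
    exact (hB.memW2 _).2 ⟨γ, hγ, rfl⟩
  · intro x hx y hy
    obtain ⟨α, hα, rfl⟩ := (hB.memW2 x).1 hx
    obtain ⟨γ, hγ, h2, rfl⟩ := (hB.memchk α hα y).1 hy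
    exact sub_chk hB hγ hα h2.le

theorem e8 (h5 : E5In) (h6 : E6No) (h1 : E1Nm) : E8Al := by
  classical
  intro B _ F α0 d J hS
  obtain ⟨-, -, hne, -⟩ := h1 B
  have hf : ∀ α : Th, ∃ f : Th → ℕ, α < o1 → Set.InjOn f (Set.Iio α) := by
    intro α
    by_cases h : α < o1
    · obtain ⟨f, hf⟩ := Set.countable_iff_exists_injOn.1 (W1_Iio α h)
      exact ⟨f, fun _ => hf⟩
    · exact ⟨fun _ => 0, fun h' => absurd h' h⟩
  choose f hf using hf
  let R1 : Th → Th → Th → B := fun α β ξ => if β < α ∧ ξ = (f α β : Th) then ⊤ else ⊥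
  let R2 : Th → Th → Th → B := fun α β ξ => if β < α ∧ ξ < o1 then J α β ξ else ⊥
  refine mod_mono (mod_and (mod_and (h5 B chk R1 Ordinal.omega0) (h5 B chk R2 o1))
    (mod_and (h6 B (fun ξ => ξ < o1) (fun n => n < Ordinal.omega0) hS.p4)
      (h6 B (fun _ => True) (fun ξ => ξ < o1) hS.p5))) ?_
  rintro H G M E π hB ⟨⟨c1, c2⟩, c3, c4⟩
  have mo1 : ∀ m, E m (π (chk o1)) ↔ ∃ ξ, HT H ξ ∧ ξ < o1 ∧ m = π (chk ξ) :=
    hB.memchk o1 hB.o1
  have mom : ∀ m, E m (π (chk Ordinal.omega0)) ↔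
      ∃ ξ, HT H ξ ∧ ξ < Ordinal.omega0 ∧ m = π (chk ξ) := hB.memchk _ hB.om
  refine ⟨⟨ord_chk hB hB.o1, π (chk Ordinal.omega0), hB.omega, c3 _ _ mo1 mom, ?_⟩,
    ord_W2 hB, c4 _ _ ?_ mo1, ?_⟩
  · intro x hx
    obtain ⟨α, hα, hα1, rfl⟩ := (mo1 x).1 hx
    refine c1 α hα ?_ ?_ ?_ ?_ ?_ _ _ (hB.memchk α hα) mom
    · intro β hβ
      apply top_le_iff.1
      refine le_iSup_of_le (f α β : Th) (le_iSup_of_le (Ordinal.natCast_lt_omega0 _) ?_)
      simp [R1, hβ]
    · intro β ξ h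
      by_cases h2 : β < α ∧ ξ = (f α β : Th)
      · exact ⟨h2.1, by rw [h2.2]; exact Ordinal.natCast_lt_omega0 _⟩
      · simp only [R1, if_neg h2] at h
        exact absurd rfl h
    · intro β ξ ξ' h
      by_cases h2 : β < α ∧ ξ = (f α β : Th)
      · have h3 : ¬ (β < α ∧ ξ' = (f α β : Th)) := fun h3 => h (by rw [h2.2, h3.2])
        simp only [R1, if_neg h3, inf_bot_eq]
      · simp only [R1, if_neg h2, bot_inf_eq]
    · intro β β' ξ h
      by_cases h2 : β < α ∧ ξ = (f α β : Th)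
      · have h3 : ¬ (β' < α ∧ ξ = (f α β' : Th)) := by
          intro h3
          apply h
          apply hf α hα1 h2.1 h3.1
          have := h2.2.symm.trans h3.2
          exact_mod_cast this
        simp only [R1, if_neg h3, inf_bot_eq]
      · simp only [R1, if_neg h2, bot_inf_eq]
    · intro β _ β' _ h
      exact hne _ _ h
  · intro m
    rw [hB.memW2]
    simp
  · intro x hx
    obtain ⟨α, hα, rfl⟩ := (hB.memW2 x).1 hx
    refine c2 α hα ?_ ?_ ?_ ?_ ?_ _ _ (hB.memchk α hα) mo1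
    · intro β hβ
      rw [← hS.j1 α β hβ]
      refine iSup_congr fun ξ => iSup_congr fun hξ => ?_
      simp only [R2, if_pos (⟨hβ, hξ⟩ : β < α ∧ ξ < o1)]
    · intro β ξ h
      by_cases h2 : β < α ∧ ξ < o1
      · exact h2
      · simp only [R2, if_neg h2] at h
        exact absurd rfl h
    · intro β ξ ξ' h
      by_cases h2 : β < α ∧ ξ < o1
      · by_cases h3 : β < α ∧ ξ' < o1
        · simp only [R2, if_pos h2, if_pos h3]
          exact hS.j2 _ _ _ _ h
        · simp only [R2, if_neg h3, inf_bot_eq]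
      · simp only [R2, if_neg h2, bot_inf_eq]
    · intro β β' ξ h
      by_cases h2 : β < α ∧ ξ < o1
      · by_cases h3 : β' < α ∧ ξ < o1
        · simp only [R2, if_pos h2, if_pos h3]
          exact hS.j3 _ _ _ _ h
        · simp only [R2, if_neg h3, inf_bot_eq]
      · simp only [R2, if_neg h2, bot_inf_eq]
    · intro β _ β' _ h
      exact hne _ _ h

end Pool.Agent.CTD.H61
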