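import Pool.Agent.Helper94_CTD.EStmts
import Pool.Agent.Helper94_CTD.PA

/-!
Tools for the model part: combination of countable families of suprema.
-/

open Set

namespace Pool.Agent.CTD.H61

open Pool.Agent.FL

variable {B : Type 1} [CompleteBooleanAlgebra B]

noncomputable instance : Inhabited (Wd B) := ⟨⟨W2n, 0, fun _ => false, fun _ => ⊥, ∅⟩⟩

/-! ## Filters -/

lemma flt_compl {G : Set B} (hG : Flt G) {b : B} (h : b ∈ G) : bᶜ ∉ G := fun h' =>
  hG.bot (by have := hG.inf b h _ h'; rwa [inf_compl_self] at this)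

lemma flt_compl' {G : Set B} (hG : Flt G) {b : B} (h : bᶜ ∈ G) : b ∉ G :=
  fun h' => flt_compl hG h' h

lemma flt_prop {G : Set B} (hG : Flt G) {p : Prop} {b : B} (h : (⨆ _ : p, b) ∈ G) :
    p ∧ b ∈ G := by
  by_cases hp : p
  · exact ⟨hp, by simpa [hp] using h⟩
  · simp only [hp, iSup_false] at h
    exact absurd h hG.bot

lemma flt_left {G : Set B} (hG : Flt G) {b c : B} (h : b ⊓ c ∈ G) : b ∈ G :=
  hG.up _ h _ inf_le_left

lemma flt_right {G : Set B} (hG : Flt G) {b c : B} (h : b ⊓ c ∈ G) : c ∈ G :=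
  hG.up _ h _ inf_le_right

lemma flt_ne {G : Set B} (hG : Flt G) {b : B} (h : b ∈ G) : b ≠ ⊥ :=
  fun h' => hG.bot (h' ▸ h)

/-! ## Surjections -/

lemma nm_surj : Function.Surjective (fun w : Wd B => w.nm) :=
  fun a => ⟨{ (default : Wd B) with nm := a }, rfl⟩
lemma th_surj : Function.Surjective (fun w : Wd B => w.th) :=
  fun a => ⟨{ (default : Wd B) with th := a }, rfl⟩
lemma br_surj : Function.Surjective (fun w : Wd B => w.br) :=
  fun a => ⟨{ (default : Wd B) with br := a }, rfl⟩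
lemma zz_surj : Function.Surjective (fun w : Wd B => w.zz) :=
  fun a => ⟨{ (default : Wd B) with zz := a }, rfl⟩
lemma fs_surj : Function.Surjective (fun w : Wd B => w.fs) :=
  fun a => ⟨{ (default : Wd B) with fs := a }, rfl⟩

/-! ## Families -/

abbrev Cl (B : Type 1) [CompleteBooleanAlgebra B] :=
  ∀ (_ : Set (Wd B)) (_ : Set B) (M : Type) (_ : M → M → Prop) (_ : BSet B → M), Prop

theorem mod_mono {C C' : Cl B} (h : Mod B C)
    (hC : ∀ H G (M : Type) (E : M → M → Prop) π, Base H G E π → C H G M E π → C' H G M E π) :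
    Mod B C' := by
  obtain ⟨V, hV⟩ := h
  exact ⟨V, fun H G M E π hB hGen => hC H G M E π hB (hV H G M E π hB hGen)⟩

theorem mod_and {C C' : Cl B} (h : Mod B C) (h' : Mod B C') :
    Mod B (fun H G M E π => C H G M E π ∧ C' H G M E π) := by
  obtain ⟨V, hV⟩ := h
  obtain ⟨V', hV'⟩ := h'
  refine ⟨fun n => if n % 2 = 0 then V (n / 2) else V' (n / 2), ?_⟩
  intro H G M E π hB hGen
  constructor
  · apply hV H G M E π hB
    intro i l hl
    have := hGen (2 * i) l hl
    simpa using this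
  · apply hV' H G M E π hB
    intro i l hl
    have := hGen (2 * i + 1) l hl
    have h1 : (2 * i + 1) % 2 = 1 := by omega
    have h2 : (2 * i + 1) / 2 = i := by omega
    simpa [h1, h2] using this

/-- one family -/
theorem mod_one (V : List (Wd B) → Wd B → B) : Mod B (fun H G _ _ _ =>
    ∀ l, (∀ x ∈ l, x ∈ H) → (⨆ w, V l w)ᶜ ∈ G ∨ ∃ w ∈ H, V l w ∈ G) :=
  ⟨fun _ => V, fun _ _ _ _ _ _ hGen l hl => hGen 0 l hl⟩

/-- closure under an operation -/
theorem mod_op (op : List (Wd B) → Wd B) : Mod B (fun H _ _ _ _ =>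
    ∀ l, (∀ x ∈ l, x ∈ H) → op l ∈ H) := by
  classical
  refine mod_mono (mod_one fun l w => if w = op l then ⊤ else ⊥) ?_
  intro H G M E π hB h l hl
  have hsup : (⨆ w, (if w = op l then (⊤ : B) else ⊥)) = ⊤ := by
    apply top_le_iff.1
    exact le_iSup_of_le (op l) (by simp)
  rcases h l hl with h1 | ⟨w, hw, h1⟩
  · rw [hsup, compl_top] at h1
    exact absurd h1 hB.flt.bot
  · by_cases hw' : w = op l
    · rwa [← hw']
    · rw [if_neg hw'] at h1
      exact absurd h1 hB.flt.bot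

/-- decisions -/
theorem mod_dec (c : List (Wd B) → B) : Mod B (fun H G _ _ _ =>
    ∀ l, (∀ x ∈ l, x ∈ H) → c l ∈ G ∨ (c l)ᶜ ∈ G) := by
  refine mod_mono (mod_one fun l _ => c l) ?_
  intro H G M E π hB h l hl
  rcases h l hl with h1 | ⟨w, _, h1⟩
  · right
    rwa [iSup_const] at h1
  · exact Or.inl h1

/-- witnesses -/
theorem mod_wit {X : Type*} {p : Wd B → X} (hp : Function.Surjective p)
    (c : List (Wd B) → X → B) : Mod B (fun H G _ _ _ =>
    ∀ l, (∀ x ∈ l, x ∈ H) → (⨆ a, c l a) ∈ G → ∃ w ∈ H, c l (p w) ∈ G) := by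
  refine mod_mono (mod_one fun l w => c l (p w)) ?_
  intro H G M E π hB h l hl hs
  rcases h l hl with h1 | h1
  · have e : (⨆ w, c l (p w)) = ⨆ a, c l a := hp.iSup_comp (g := c l)
    rw [e] at h1
    exact absurd h1 (flt_compl hB.flt hs)
  · exact h1

/-- infima -/
theorem mod_inf {X : Type*} {p : Wd B → X} (hp : Function.Surjective p)
    (c : List (Wd B) → X → B) : Mod B (fun H G _ _ _ =>
    ∀ l, (∀ x ∈ l, x ∈ H) → (⨅ a, c l a) ∈ G ∨ ∃ w ∈ H, (c l (p w))ᶜ ∈ G) := by
  refine mod_mono (mod_one fun l w => (c l (p w))ᶜ) ?_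
  intro H G M E π hB h l hl
  rcases h l hl with h1 | h1
  · left
    have e : (⨆ w, (c l (p w))ᶜ)ᶜ = ⨅ a, c l a := by
      rw [compl_iSup, ← hp.iInf_comp (g := c l)]
      simp
    rwa [e] at h1
  · exact Or.inr h1

/-- a statement without conditions on the hull -/
theorem mod_triv {C : Cl B} (hC : ∀ H G (M : Type) (E : M → M → Prop) π, Base H G E π →
    C H G M E π) : Mod B C :=
  ⟨fun _ _ _ => ⊥, fun H G M E π hB _ => hC H G M E π hB⟩

/-- conjunctions over a countable set of indices -/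
theorem mod_all {C : ℕ → Cl B} (h : ∀ n, Mod B (C n)) :
    Mod B (fun H G M E π => ∀ n, C n H G M E π) := by
  choose V hV using h
  refine ⟨fun n => V n.unpair.1 n.unpair.2, ?_⟩
  intro H G M E π hB hGen n
  apply hV n H G M E π hB
  intro i l hl
  have := hGen (Nat.pair n i) l hl
  simpa using this

end Pool.Agent.CTD.H61
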